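import Mathlib

/-!
# A pair with a small symmetric difference, and sets with congruent products
-/

set_option autoImplicit false

namespace Pool.Agent.N9.AB

open Finset

/-- averaging over the pairs of a family of sets: some pair has a small weighted symmetric
difference -/
theorem pair_average (P : Finset ℕ) (F : Finset (Finset ℕ)) (hF : ∀ T ∈ F, T ⊆ P)
    (w : ℕ → ℝ) (hw : ∀ p, 0 ≤ w p) (hN : 2 ≤ F.card) :
    ∃ A ∈ F, ∃ B ∈ F, A ≠ B ∧
      2 * ((F.card : ℝ) - 1) * (∑ p ∈ A \ B, w p + ∑ p ∈ B \ A, w p) ≤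
        (F.card : ℝ) * ∑ p ∈ P, w p := by
  classical
  by_contra hcon
  push Not at hcon
  set x : Finset ℕ → ℕ → ℝ := fun A p => if p ∈ A then 1 else 0 with hx
  set S : Finset ℕ → Finset ℕ → ℝ := fun A B => ∑ p ∈ A \ B, w p + ∑ p ∈ B \ A, w p with hS
  have hSeq : ∀ A ∈ F, ∀ B ∈ F, S A B = ∑ p ∈ P, w p * (x A p - x B p) ^ 2 := by
    intro A hA B hB
    have h1 : ∑ p ∈ A \ B, w p = ∑ p ∈ P, (if p ∈ A \ B then w p else 0) := by
      rw [← Finset.sum_filter]
      apply Finset.sum_congr _ fun _ _ => rfl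
      ext p
      simp only [Finset.mem_filter]
      constructor
      · intro h
        exact ⟨hF A hA (Finset.mem_sdiff.mp h).1, h⟩
      · exact fun h => h.2
    have h2 : ∑ p ∈ B \ A, w p = ∑ p ∈ P, (if p ∈ B \ A then w p else 0) := by
      rw [← Finset.sum_filter]
      apply Finset.sum_congr _ fun _ _ => rfl
      ext p
      simp only [Finset.mem_filter]
      constructor
      · intro h
        exact ⟨hF B hB (Finset.mem_sdiff.mp h).1, h⟩
      · exact fun h => h.2
    rw [hS]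
    simp only
    rw [h1, h2, ← Finset.sum_add_distrib]
    apply Finset.sum_congr rfl
    intro p _
    simp only [hx, Finset.mem_sdiff]
    by_cases hpA : p ∈ A <;> by_cases hpB : p ∈ B <;> simp [hpA, hpB]
  set N : ℝ := (F.card : ℝ) with hNdef
  have hN2 : (2 : ℝ) ≤ N := by
    rw [hNdef]
    exact_mod_cast hN
  set W : ℝ := ∑ p ∈ P, w p with hW
  -- the total
  have htot : ∑ A ∈ F, ∑ B ∈ F, S A B ≤ N ^ 2 / 2 * W := by
    have h1 : ∑ A ∈ F, ∑ B ∈ F, S A B =
        ∑ p ∈ P, w p * (∑ A ∈ F, ∑ B ∈ F, (x A p - x B p) ^ 2) := by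
      calc ∑ A ∈ F, ∑ B ∈ F, S A B
          = ∑ A ∈ F, ∑ B ∈ F, ∑ p ∈ P, w p * (x A p - x B p) ^ 2 :=
            Finset.sum_congr rfl fun A hA => Finset.sum_congr rfl fun B hB => hSeq A hA B hB
        _ = ∑ A ∈ F, ∑ p ∈ P, ∑ B ∈ F, w p * (x A p - x B p) ^ 2 :=
            Finset.sum_congr rfl fun A _ => Finset.sum_comm
        _ = ∑ p ∈ P, ∑ A ∈ F, ∑ B ∈ F, w p * (x A p - x B p) ^ 2 := Finset.sum_comm
        _ = ∑ p ∈ P, w p * (∑ A ∈ F, ∑ B ∈ F, (x A p - x B p) ^ 2) := by
            apply Finset.sum_congr rfl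
            intro p _
            rw [Finset.mul_sum]
            apply Finset.sum_congr rfl
            intro A _
            rw [Finset.mul_sum]
    rw [h1, hW, Finset.mul_sum]
    apply Finset.sum_le_sum
    intro p _
    rw [mul_comm (N ^ 2 / 2) (w p)]
    apply mul_le_mul_of_nonneg_left _ (hw p)
    set s : ℝ := ∑ A ∈ F, x A p with hs
    have hsq : ∑ A ∈ F, x A p ^ 2 = s := by
      rw [hs]
      apply Finset.sum_congr rfl
      intro A _
      simp only [hx]
      split_ifs <;> norm_num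
    have h2 : ∑ A ∈ F, ∑ B ∈ F, (x A p - x B p) ^ 2 = 2 * N * s - 2 * s ^ 2 := by
      have h3 : ∀ A ∈ F, ∑ B ∈ F, (x A p - x B p) ^ 2 = N * x A p ^ 2 - 2 * x A p * s + s := by
        intro A _
        calc ∑ B ∈ F, (x A p - x B p) ^ 2
            = ∑ B ∈ F, (x A p ^ 2 - 2 * x A p * x B p + x B p ^ 2) := by
              apply Finset.sum_congr rfl
              intro B _
              ring
          _ = ∑ B ∈ F, x A p ^ 2 - ∑ B ∈ F, 2 * x A p * x B p + ∑ B ∈ F, x B p ^ 2 := by
              rw [Finset.sum_add_distrib, Finset.sum_sub_distrib]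
          _ = N * x A p ^ 2 - 2 * x A p * s + s := by
              rw [hsq, Finset.sum_const, nsmul_eq_mul, ← Finset.mul_sum]
      rw [Finset.sum_congr rfl h3]
      calc ∑ A ∈ F, (N * x A p ^ 2 - 2 * x A p * s + s)
          = ∑ A ∈ F, N * x A p ^ 2 - ∑ A ∈ F, 2 * x A p * s + ∑ A ∈ F, s := by
            rw [Finset.sum_add_distrib, Finset.sum_sub_distrib]
        _ = N * s - 2 * s * s + N * s := by
            have h5 : ∑ A ∈ F, 2 * x A p * s = 2 * s * s := by
              calc ∑ A ∈ F, 2 * x A p * s = ∑ A ∈ F, (2 * s) * x A p :=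
                    Finset.sum_congr rfl fun A _ => by ring
                _ = 2 * s * s := by rw [← Finset.mul_sum]
            rw [← Finset.mul_sum, hsq, Finset.sum_const, nsmul_eq_mul, h5]
        _ = 2 * N * s - 2 * s ^ 2 := by ring
    rw [h2]
    nlinarith [sq_nonneg (N - 2 * s)]
  -- every off diagonal pair is large
  obtain ⟨A₀, hA₀, B₀, hB₀, hAB₀⟩ := Finset.one_lt_card.mp (by omega : 1 < F.card)
  have hdiag : ∀ A, S A A = 0 := by
    intro A
    simp [hS]
  have hoff : ∀ A ∈ F, ∀ B ∈ F, A ≠ B → N * W / (2 * (N - 1)) < S A B := by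
    intro A hA B hB hAB
    have h1 := hcon A hA B hB hAB
    rw [div_lt_iff₀ (by linarith)]
    calc N * W < 2 * (N - 1) * S A B := h1
      _ = S A B * (2 * (N - 1)) := by ring
  set q : ℝ := N * W / (2 * (N - 1)) with hq
  have hrow : ∀ A ∈ F, (N - 1) * q < ∑ B ∈ F, S A B := by
    intro A hA
    rw [← Finset.add_sum_erase F _ hA, hdiag, zero_add]
    have hcard : ((F.erase A).card : ℝ) = N - 1 := by
      rw [Finset.card_erase_of_mem hA, hNdef, Nat.cast_sub (by omega)]
      norm_num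
    calc (N - 1) * q = ∑ _ ∈ F.erase A, q := by
          rw [Finset.sum_const, nsmul_eq_mul, hcard]
      _ < ∑ B ∈ F.erase A, S A B := by
          apply Finset.sum_lt_sum_of_nonempty
          · rw [← Finset.card_pos, Finset.card_erase_of_mem hA]
            omega
          · intro B hB
            obtain ⟨h1, h2⟩ := Finset.mem_erase.mp hB
            exact hoff A hA B h2 h1.symm
  have hall : N * ((N - 1) * q) < ∑ A ∈ F, ∑ B ∈ F, S A B := by
    calc N * ((N - 1) * q) = ∑ _ ∈ F, (N - 1) * q := by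
          rw [Finset.sum_const, nsmul_eq_mul]
      _ < ∑ A ∈ F, ∑ B ∈ F, S A B := Finset.sum_lt_sum_of_nonempty ⟨A₀, hA₀⟩ hrow
  have hfin : N * ((N - 1) * q) = N ^ 2 / 2 * W := by
    have h1 : N - 1 ≠ 0 := by linarith
    rw [hq]
    field_simp
  linarith

/-- `2 ^ k ≤ (k + 1) * (k choose k / 2)` -/
theorem two_pow_le_middle (k : ℕ) : 2 ^ k ≤ (k + 1) * k.choose (k / 2) := by
  rw [← Nat.sum_range_choose k]
  calc ∑ i ∈ range (k + 1), k.choose i ≤ ∑ _ ∈ range (k + 1), k.choose (k / 2) :=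
        Finset.sum_le_sum fun i _ => Nat.choose_le_middle i k
    _ = (k + 1) * k.choose (k / 2) := by simp

/-- the pigeonhole principle for products of half of the elements modulo `2 ^ m` -/
theorem exists_class (P : Finset ℕ) (N m : ℕ) (h : 2 ^ m * N ≤ P.card.choose (P.card / 2)) :
    ∃ F : Finset (Finset ℕ), F.card = N ∧ (∀ T ∈ F, T ⊆ P ∧ T.card = P.card / 2) ∧
      ∀ A ∈ F, ∀ B ∈ F, (∏ p ∈ A, p) ≡ (∏ p ∈ B, p) [MOD 2 ^ m] := by
  classical
  have h1 : ∀ T ∈ P.powersetCard (P.card / 2), (∏ p ∈ T, p) % 2 ^ m ∈ range (2 ^ m) := by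
    intro T _
    exact mem_range.mpr (Nat.mod_lt _ (by positivity))
  obtain ⟨y, _, hy⟩ := Finset.exists_le_card_fiber_of_mul_le_card_of_maps_to h1
    ⟨0, mem_range.mpr (by positivity)⟩ (n := N) (by
      rw [card_range, card_powersetCard]
      exact h)
  obtain ⟨F, hF1, hF2⟩ := Finset.exists_subset_card_eq hy
  refine ⟨F, hF2, ?_, ?_⟩
  · intro T hT
    have := hF1 hT
    rw [mem_filter, mem_powersetCard] at this
    exact this.1
  · intro A hA B hB
    have h2 := (mem_filter.mp (hF1 hA)).2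
    have h3 := (mem_filter.mp (hF1 hB)).2
    exact h2.trans h3.symm

end Pool.Agent.N9.AB
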