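import Pool.Agent.N9.AB.Weight
import Pool.Agent.N9.AB.Comb

/-!
# The parameters
-/

set_option autoImplicit false

namespace Pool.Agent.N9.AB

open Filter Topology

/-- the exponent of the modulus -/
theorem exists_m {N : ℕ} (hN : 1 ≤ N) {δ : ℝ} (hδ : 0 < δ) (hδ1 : δ ≤ 1 / 2) :
    ∀ᶠ k : ℕ in atTop, ∃ m : ℕ, 2 ^ m * N ≤ k.choose (k / 2) ∧
      (Real.log 2 - δ) * k ≤ (m - 1) * Real.log 2 ∧ m ≤ k := by
  have hNR : (1 : ℝ) ≤ N := by exact_mod_cast hN
  have hl2 := Real.log_two_gt_d9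
  have hl20 : 0 < Real.log 2 := by linarith
  have h1 : ∀ᶠ k : ℕ in atTop, Real.log ((k : ℝ) + 1) ≤ δ / 2 * ((k : ℝ) + 1) := by
    have h2 : Tendsto (fun k : ℕ => (k : ℝ) + 1) atTop atTop :=
      tendsto_atTop_add_const_right _ _ tendsto_natCast_atTop_atTop
    have h3 := (Real.isLittleO_log_id_atTop.comp_tendsto h2).bound (show 0 < δ / 2 by linarith)
    filter_upwards [h3] with k hk
    simp only [Function.comp_apply, id_eq, Real.norm_eq_abs] at hk
    rw [abs_of_nonneg (show (0 : ℝ) ≤ (k : ℝ) + 1 by positivity)] at hk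
    exact (le_abs_self _).trans hk
  have h2 : ∀ᶠ k : ℕ in atTop, (δ + 2 * Real.log 2 + Real.log N) / (δ / 2) ≤ (k : ℝ) :=
    tendsto_natCast_atTop_atTop.eventually_ge_atTop _
  filter_upwards [h1, h2, eventually_ge_atTop 1] with k hk1 hk2 hk3
  have hkR : (1 : ℝ) ≤ k := by exact_mod_cast hk3
  rw [div_le_iff₀ (by linarith)] at hk2
  have hsum : Real.log ((k : ℝ) + 1) + 2 * Real.log 2 + Real.log N ≤ δ * k := by nlinarith
  set C : ℕ := k.choose (k / 2) with hC
  have hmid := two_pow_le_middle k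
  rw [← hC] at hmid
  have hCN : N ≤ C := by
    by_contra hcon
    rw [not_le] at hcon
    have h3 : 2 ^ k ≤ (k + 1) * N := hmid.trans (Nat.mul_le_mul_left _ hcon.le)
    have h4 : (2 : ℝ) ^ k ≤ ((k : ℝ) + 1) * N := by exact_mod_cast h3
    have h5 := Real.log_le_log (by positivity) h4
    rw [Real.log_pow, Real.log_mul (by positivity) (by positivity)] at h5
    nlinarith
  have hdiv : C / N ≠ 0 := by
    intro h
    rw [Nat.div_eq_zero_iff] at h
    omega
  set m : ℕ := Nat.log 2 (C / N) with hm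
  have h3 : 2 ^ m ≤ C / N := Nat.pow_log_le_self 2 hdiv
  have h4 : C / N < 2 ^ (m + 1) := Nat.lt_pow_succ_log_self (by norm_num) _
  have h5 : 2 ^ m * N ≤ C := (Nat.mul_le_mul_right N h3).trans (Nat.div_mul_le_self C N)
  refine ⟨m, h5, ?_, ?_⟩
  · have h6 : C < 2 ^ (m + 1) * N := (Nat.div_lt_iff_lt_mul (by omega)).mp h4
    have h7 : 2 ^ k ≤ (k + 1) * (2 ^ (m + 1) * N) := hmid.trans (Nat.mul_le_mul_left _ h6.le)
    have h8 : (2 : ℝ) ^ k ≤ ((k : ℝ) + 1) * (2 ^ (m + 1) * N) := by exact_mod_cast h7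
    have h9 := Real.log_le_log (by positivity) h8
    rw [Real.log_pow, Real.log_mul (by positivity) (by positivity),
      Real.log_mul (by positivity) (by positivity), Real.log_pow] at h9
    push_cast at h9
    nlinarith
  · have h6 : 2 ^ m ≤ 2 ^ k := by
      calc 2 ^ m ≤ 2 ^ m * N := Nat.le_mul_of_pos_right _ (by omega)
        _ ≤ C := h5
        _ ≤ 2 ^ k := Nat.choose_le_two_pow k (k / 2)
    exact (Nat.pow_le_pow_iff_right (by norm_num)).mp h6

/-- the parameters -/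
theorem eventual {N : ℕ} (hN : 1 ≤ N) {δ δ₁ : ℝ} (hδ : 0 < δ) (hδ1 : δ ≤ 1 / 40)
    (hδ₁ : 0 < δ₁) (B : ℝ) :
    ∀ᶠ y : ℕ in atTop, 3 ≤ y ∧ ∃ k m : ℕ, k + 1 = Nat.primeCounting y ∧ 0 < k ∧
      -δ ≤ Real.log (k * Real.log y / y) ∧ (k : ℝ) ≤ δ₁ * y ∧ (y : ℝ) ≤ 2 * k * Real.log y ∧
      (Nat.primeCounting y : ℝ) * Real.log y - Chebyshev.theta y ≤ δ₁ * y ∧
      ∑ p ∈ Nat.primesLE y, max (Real.log 4 - (Real.log y - Real.log p)) 0 ≤
        (Real.log 4 - 3 / 4 + δ) * k ∧
      2 ^ m * N ≤ k.choose (k / 2) ∧ (Real.log 2 - δ) * k ≤ (m - 1) * Real.log 2 ∧ m ≤ k ∧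
      (1 - δ) * Real.log y ≤ Real.log (m * Real.log 2) ∧ B < m * Real.log 2 := by
  have hl2 := Real.log_two_gt_d9
  have hl20 : 0 < Real.log 2 := by linarith
  have hcast : Tendsto (fun y : ℕ => (y : ℝ)) atTop atTop := tendsto_natCast_atTop_atTop
  have hlog : Tendsto (fun y : ℕ => Real.log (y : ℝ)) atTop atTop :=
    Real.tendsto_log_atTop.comp hcast
  have hpi : Tendsto (fun y : ℕ => (Nat.primeCounting y : ℝ) * Real.log y / y) atTop (𝓝 1) := by
    have h1 := Pool.Agent.Cov.PNT.pi_tendsto.comp hcast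
    refine h1.congr fun y => ?_
    simp only [Function.comp_apply, Nat.floor_natCast]
  have hth : Tendsto (fun y : ℕ => Chebyshev.theta (y : ℝ) / y) atTop (𝓝 1) :=
    Pool.Agent.Cov.PNT.theta_div_tendsto.comp hcast
  have hlx : Tendsto (fun y : ℕ => Real.log (y : ℝ) / y) atTop (𝓝 0) := by
    have := Real.isLittleO_log_id_atTop.tendsto_div_nhds_zero
    exact this.comp hcast
  -- `(π - 1) log y / y → 1`
  have hk1 : Tendsto (fun y : ℕ => ((Nat.primeCounting y : ℝ) - 1) * Real.log y / y) atTop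
      (𝓝 1) := by
    have h1 := hpi.sub hlx
    rw [sub_zero] at h1
    refine h1.congr fun y => ?_
    ring
  have hk2 : Tendsto (fun y : ℕ => Real.log (((Nat.primeCounting y : ℝ) - 1) * Real.log y / y))
      atTop (𝓝 0) := by
    have h1 := hk1.log one_ne_zero
    rwa [Real.log_one] at h1
  have hk3 : Tendsto (fun y : ℕ => ((Nat.primeCounting y : ℝ) - 1) / y) atTop (𝓝 0) := by
    have h1 := hk1.div_atTop hlog
    refine h1.congr' ?_
    filter_upwards [hlog.eventually_gt_atTop 0] with y hy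
    field_simp
  have hdiff : Tendsto (fun y : ℕ => ((Nat.primeCounting y : ℝ) * Real.log y -
      Chebyshev.theta y) / y) atTop (𝓝 0) := by
    have h1 := hpi.sub hth
    rw [sub_self] at h1
    refine h1.congr fun y => ?_
    ring
  have hpiinf : Tendsto (fun y : ℕ => Nat.primeCounting y - 1) atTop atTop :=
    (tendsto_sub_atTop_nat 1).comp Nat.tendsto_primeCounting
  have hpiinfR : Tendsto (fun y : ℕ => ((Nat.primeCounting y - 1 : ℕ) : ℝ)) atTop atTop :=
    hcast.comp hpiinf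
  have hw := hcast.eventually (weight_sum (show 0 < δ / 4 by linarith))
  have hm := hpiinf.eventually (exists_m hN hδ (by linarith : δ ≤ 1 / 2))
  have hloglog : ∀ᶠ y : ℕ in atTop, Real.log 4 + Real.log (Real.log (y : ℝ)) ≤
      δ * Real.log (y : ℝ) := by
    have h3 := (Real.isLittleO_log_id_atTop.comp_tendsto hlog).bound (show 0 < δ / 2 by linarith)
    filter_upwards [h3, hlog.eventually_ge_atTop (Real.log 4 / (δ / 2)),
      hlog.eventually_ge_atTop 0] with y hk h4 h5
    simp only [Function.comp_apply, id_eq, Real.norm_eq_abs] at hk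
    rw [abs_of_nonneg h5] at hk
    have h6 := (le_abs_self _).trans hk
    rw [div_le_iff₀ (by linarith)] at h4
    linarith
  filter_upwards [hk1.eventually (lt_mem_nhds (show (1 / 2 : ℝ) < 1 by norm_num)),
    hk2.eventually (lt_mem_nhds (show -δ < 0 by linarith)),
    hk3.eventually (gt_mem_nhds hδ₁), hdiff.eventually (gt_mem_nhds hδ₁), hw, hm, hloglog,
    hpiinfR.eventually_ge_atTop (8 / δ), hpiinfR.eventually_gt_atTop (2 * B),
    eventually_ge_atTop 3, hpiinf.eventually_ge_atTop 1, hlog.eventually_gt_atTop 0] with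
    y e1 e2 e3 e4 e5 e6 e7 e8 e9 e10 e11 e12
  obtain ⟨m, hm1, hm2, hm3⟩ := e6
  have hyR : (3 : ℝ) ≤ y := by exact_mod_cast e10
  have hy0 : (0 : ℝ) < y := by linarith
  have hkk : Nat.primeCounting y - 1 + 1 = Nat.primeCounting y := by omega
  have hkR : ((Nat.primeCounting y - 1 : ℕ) : ℝ) = (Nat.primeCounting y : ℝ) - 1 := by
    rw [Nat.cast_sub (by omega)]
    norm_num
  rw [← hkR] at e1 e2 e3
  set k : ℕ := Nat.primeCounting y - 1 with hk
  have hk0 : (1 : ℝ) ≤ k := by exact_mod_cast e11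
  rw [lt_div_iff₀ hy0] at e1
  rw [div_lt_iff₀ hy0] at e3 e4
  have hmk : (1 / 2 : ℝ) * k ≤ m * Real.log 2 := by
    have : (1 / 2 : ℝ) * k ≤ (Real.log 2 - δ) * k := by
      apply mul_le_mul_of_nonneg_right _ (by linarith)
      linarith
    linarith
  refine ⟨e10, k, m, hkk, by omega, e2.le, e3.le, by linarith, e4.le, ?_, hm1, hm2, hm3, ?_,
    by linarith⟩
  · rw [Nat.floor_natCast] at e5
    refine e5.trans ?_
    rw [← hkk]
    push_cast
    rw [div_le_iff₀ hδ] at e8
    have h4 : Real.log 4 = 2 * Real.log 2 := by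
      rw [show (4 : ℝ) = 2 ^ 2 by norm_num, Real.log_pow]
      push_cast
      ring
    have h5 := Real.log_two_lt_d9
    nlinarith
  · have h1 : (y : ℝ) / (4 * Real.log y) ≤ m * Real.log 2 := by
      rw [div_le_iff₀ (by positivity)]
      nlinarith
    have h2 := Real.log_le_log (by positivity) h1
    rw [Real.log_div hy0.ne' (by positivity), Real.log_mul (by norm_num) e12.ne'] at h2
    linarith

end Pool.Agent.N9.AB
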