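import Mathlib

/-!
# The inequality for one pair
-/

set_option autoImplicit false

namespace Pool.Agent.N9.AB

/-- `x log x ≥ -3/8` -/
theorem mul_log_ge {x : ℝ} (hx : 0 < x) : -(3 / 8) ≤ x * Real.log x := by
  have h1 : 1 - (x / (3 / 8))⁻¹ ≤ Real.log (x / (3 / 8)) :=
    Real.one_sub_inv_le_log_of_pos (by positivity)
  rw [Real.log_div hx.ne' (by norm_num)] at h1
  have h2 : -1 ≤ Real.log (3 / 8 : ℝ) := by
    rw [Real.le_log_iff_exp_le (by norm_num), Real.exp_neg, inv_le_comm₀ (Real.exp_pos _)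
      (by norm_num)]
    have := Real.exp_one_gt_d9
    norm_num at this ⊢
    linarith
  have h3 : x * (1 - (x / (3 / 8))⁻¹) = x - 3 / 8 := by
    field_simp
  have h4 := mul_le_mul_of_nonneg_left h1 hx.le
  rw [h3] at h4
  nlinarith

/-- the inequality for one pair -/
theorem ineq {κ u Y y L G l m δ δ₁ : ℝ} (hκ : 0 < κ) (hu : 0 < u) (hY : 0 < Y) (hy : 0 < y)
    (hYy : Y = Real.log y) (hδ : 0 < δ) (hδ30 : δ ≤ 1 / 40)
    (hδ₁ : 80 * δ₁ ≤ 3 * (1 - Real.exp (-δ)))
    (h1 : 2 * u ≤ κ) (h2 : -δ ≤ Real.log (κ * Y / y)) (h3 : L = 2 * u * Y - l)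
    (h5 : 2 * u ≤ L)
    (hdecr : -(2 * u * Y) + 2 * u * Real.log (2 * u * Y) ≤ -L + 2 * u * Real.log L)
    (hG1 : L ≤ G) (hG2 : 3 / 2 * L - m * Real.log 2 ≤ G)
    (hm : (Real.log 2 - δ) * κ ≤ (m - 1) * Real.log 2) (hm' : m * Real.log 2 ≤ κ)
    (hl : l ≤ δ₁ * y) (hκy : κ ≤ δ₁ * y) (hyκ : y ≤ 2 * κ * Y)
    (hW : 2 * u * Real.log 4 - l ≤ 1 / 2 * (Real.log 4 - 3 / 4) * κ + δ * κ) :
    (2 + 4 * Real.log (3 / 2) - 36 * δ) * u ≤ (m - 1) * Real.log 2 - L + 2 * u * Real.log G := by
  have hL0 : 0 < L := by linarith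
  have hlog4 : Real.log 4 = 2 * Real.log 2 := by
    rw [show (4 : ℝ) = 2 ^ 2 by norm_num, Real.log_pow]
    push_cast
    ring
  have hlog32 : Real.log (3 / 2) = Real.log 3 - Real.log 2 :=
    Real.log_div (by norm_num) (by norm_num)
  have hlog32' : Real.log (3 / 2 : ℝ) ≤ 1 / 2 := by
    have := Real.log_le_sub_one_of_pos (show (0 : ℝ) < 3 / 2 by norm_num)
    linarith
  have hl2 := Real.log_two_gt_d9
  rcases le_total (16 * u) κ with hcase | hcase
  · -- the small case
    have h6 : Real.log (2 * u * Y) = Real.log (2 * u / κ) + Real.log (κ * Y / y) + Y := by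
      rw [hYy, ← Real.log_mul (by positivity) (by
        rw [← hYy]
        positivity), ← Real.log_mul (by
        rw [← hYy]
        positivity) hy.ne']
      congr 1
      field_simp
    have h7 : -(3 / 8) * κ ≤ 2 * u * Real.log (2 * u / κ) := by
      have h8 := mul_log_ge (x := 2 * u / κ) (by positivity)
      have h9 := mul_le_mul_of_nonneg_right h8 hκ.le
      have h10 : 2 * u / κ * Real.log (2 * u / κ) * κ = 2 * u * Real.log (2 * u / κ) := by
        field_simp
      rw [h10] at h9
      linarith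
    have h8 : -(δ * κ) ≤ 2 * u * Real.log (κ * Y / y) := by
      have h9 := mul_le_mul_of_nonneg_left h2 (show 0 ≤ 2 * u by positivity)
      nlinarith
    have h9 : 2 * u * Real.log L ≤ 2 * u * Real.log G := by
      have := Real.log_le_log hL0 hG1
      gcongr
    have h10 : 2 * u * Real.log (2 * u * Y) = 2 * u * Real.log (2 * u / κ) +
        2 * u * Real.log (κ * Y / y) + 2 * u * Y := by
      rw [h6]
      ring
    have h11 : (0.31 - 2 * δ) * κ ≤ (m - 1) * Real.log 2 - L + 2 * u * Real.log G := by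
      have : (0.693 : ℝ) * κ ≤ Real.log 2 * κ := by
        apply mul_le_mul_of_nonneg_right _ hκ.le
        linarith
      nlinarith
    have h12 : (1 / 4 : ℝ) * κ ≤ (0.31 - 2 * δ) * κ := by
      apply mul_le_mul_of_nonneg_right _ hκ.le
      norm_num
      linarith
    have h13 : (2 + 4 * Real.log (3 / 2) - 36 * δ) * u ≤ 4 * u := by
      apply mul_le_mul_of_nonneg_right _ hu.le
      linarith
    linarith
  · -- the large case
    have hG : 3 * u * Y * Real.exp (-δ) ≤ G := by
      have h6 : y ≤ 32 * u * Y := by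
        have : κ * Y ≤ 16 * u * Y := by gcongr
        linarith
      have h7 : m * Real.log 2 ≤ δ₁ * y := hm'.trans hκy
      have hδ₁0 : 0 ≤ δ₁ := by
        by_contra hcon
        rw [not_le] at hcon
        have : δ₁ * y < 0 := mul_neg_of_neg_of_pos hcon hy
        linarith
      have h8 : 5 / 2 * (δ₁ * y) ≤ 80 * δ₁ * (u * Y) := by
        have : δ₁ * y ≤ δ₁ * (32 * u * Y) := by gcongr
        linarith
      have h9 : 80 * δ₁ * (u * Y) ≤ 3 * (1 - Real.exp (-δ)) * (u * Y) := by
        apply mul_le_mul_of_nonneg_right hδ₁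
        positivity
      rw [h3] at hG2
      linarith
    have h6 : Real.log (3 * u * Y) - δ ≤ Real.log G := by
      have h7 := Real.log_le_log (by positivity) hG
      rw [Real.log_mul (by positivity) (Real.exp_pos _).ne', Real.log_exp] at h7
      linarith
    have h7 : Real.log (3 * u * Y) = Real.log (3 * u / κ) + Real.log (κ * Y / y) + Y := by
      rw [hYy, ← Real.log_mul (by positivity) (by
        rw [← hYy]
        positivity), ← Real.log_mul (by
        rw [← hYy]
        positivity) hy.ne']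
      congr 1
      field_simp
    -- the tangent
    have h8 : 1 - 3 * κ / (16 * u) ≤ Real.log (16 * u / (3 * κ)) := by
      have := Real.one_sub_inv_le_log_of_pos (show 0 < 16 * u / (3 * κ) by positivity)
      rwa [inv_div] at this
    have h9 : Real.log (16 * u / (3 * κ)) = Real.log (3 * u / κ) + 2 * Real.log 4 -
        2 * Real.log 3 := by
      have e1 : 16 * u / (3 * κ) = 3 * u / κ * 4 ^ 2 / 3 ^ 2 := by
        field_simp
        ring
      rw [e1, Real.log_div (by positivity) (by norm_num), Real.log_mul (by positivity)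
        (by norm_num), Real.log_pow, Real.log_pow]
      push_cast
      ring
    have h10 : 2 * u - 3 / 8 * κ ≤ 2 * u * Real.log (16 * u / (3 * κ)) := by
      have h11 := mul_le_mul_of_nonneg_left h8 (show 0 ≤ 2 * u by positivity)
      have h12 : 2 * u * (1 - 3 * κ / (16 * u)) = 2 * u - 3 / 8 * κ := by
        field_simp
        ring
      rwa [h12] at h11
    have h11 : 2 * u * (Real.log (3 * u / κ) - 2 * δ + Y) ≤ 2 * u * Real.log G := by
      apply mul_le_mul_of_nonneg_left _ (by positivity)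
      linarith
    have h12 : δ * κ ≤ 16 * (δ * u) := by nlinarith
    rw [h9, hlog4] at h10
    rw [hlog4] at hW
    rw [hlog32, h3]
    linarith

end Pool.Agent.N9.AB
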