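import Mathlib

/-!
# The triple given by two products of primes that are congruent modulo a power of `2`
-/

set_option autoImplicit false

namespace Pool.Agent.N9.AB

open Finset

/-- `- g + k log g` decreases for `g ≥ k` -/
theorem decr {k g G : ℝ} (hk : 0 ≤ k) (hg : 0 < g) (hkg : k ≤ g) (hgG : g ≤ G) :
    -G + k * Real.log G ≤ -g + k * Real.log g := by
  have hG : 0 < G := by linarith
  have h1 : Real.log G - Real.log g ≤ G / g - 1 := by
    rw [← Real.log_div hG.ne' hg.ne']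
    exact Real.log_le_sub_one_of_pos (by positivity)
  have h2 : k * (G / g - 1) ≤ G - g := by
    have h3 : 0 ≤ G / g - 1 := by
      rw [sub_nonneg, one_le_div hg]
      exact hgG
    calc k * (G / g - 1) ≤ g * (G / g - 1) := by gcongr
      _ = G - g := by field_simp
  have h4 := mul_le_mul_of_nonneg_left h1 hk
  linarith

/-- the sum of the logarithms of a set of odd primes -/
theorem card_le_sum_log {X : Finset ℕ} (hX : ∀ p ∈ X, p.Prime ∧ 3 ≤ p) :
    (X.card : ℝ) ≤ ∑ p ∈ X, Real.log p := by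
  have h3 : (1 : ℝ) ≤ Real.log 3 := by
    rw [Real.le_log_iff_exp_le (by norm_num)]
    exact (Real.exp_one_lt_d9.trans (by norm_num)).le
  calc (X.card : ℝ) = ∑ _ ∈ X, (1 : ℝ) := by simp
    _ ≤ ∑ p ∈ X, Real.log p := by
        apply Finset.sum_le_sum
        intro p hp
        refine h3.trans (Real.log_le_log (by norm_num) ?_)
        exact_mod_cast (hX p hp).2

/-- the data of the triple `(∏ X - ∏ Y, ∏ Y, ∏ X)` -/
theorem core {y m u : ℕ} {X Y : Finset ℕ} (hX : ∀ p ∈ X, p.Prime ∧ 3 ≤ p ∧ p ≤ y)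
    (hY : ∀ p ∈ Y, p.Prime ∧ 3 ≤ p ∧ p ≤ y) (hXY : Disjoint X Y) (hXu : X.card = u)
    (hYu : Y.card = u) (hu : 1 ≤ u) (hlt : ∏ p ∈ Y, p < ∏ p ∈ X, p)
    (hmod : (∏ p ∈ Y, p) ≡ (∏ p ∈ X, p) [MOD 2 ^ m]) :
    ∃ a b c : ℕ, 0 < a ∧ 0 < b ∧ a + b = c ∧ Nat.Coprime a b ∧ 2 ^ m ≤ c ∧
      Real.log c ≤ u * Real.log y ∧ ∃ G : ℝ,
        (∑ p ∈ X, Real.log p + ∑ p ∈ Y, Real.log p) ≤ G ∧
        3 / 2 * (∑ p ∈ X, Real.log p + ∑ p ∈ Y, Real.log p) - m * Real.log 2 ≤ G ∧
        1 ≤ Real.log ((∏ p ∈ (a * b * c).primeFactors, p : ℕ) : ℝ) ∧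
        (m - 1) * Real.log 2 - (∑ p ∈ X, Real.log p + ∑ p ∈ Y, Real.log p) +
            2 * u * Real.log G ≤
          Real.log c - (Real.log ((∏ p ∈ (a * b * c).primeFactors, p : ℕ) : ℝ) -
            ((a * b * c).primeFactors.card : ℝ) *
              Real.log (Real.log ((∏ p ∈ (a * b * c).primeFactors, p : ℕ) : ℝ))) := by
  classical
  set c : ℕ := ∏ p ∈ X, p with hc
  set b : ℕ := ∏ p ∈ Y, p with hb
  have hb0 : 0 < b := Finset.prod_pos fun p hp => (hY p hp).1.pos
  have hc0 : 0 < c := Finset.prod_pos fun p hp => (hX p hp).1.pos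
  have hbR : (0 : ℝ) < b := by exact_mod_cast hb0
  have hcR : (0 : ℝ) < c := by exact_mod_cast hc0
  have hcop : Nat.Coprime c b := by
    rw [hc, hb]
    apply Nat.Coprime.prod_left
    intro p hp
    apply Nat.Coprime.prod_right
    intro q hq
    rw [Nat.coprime_primes (hX p hp).1 (hY q hq).1]
    intro h
    rw [h] at hp
    exact Finset.disjoint_left.mp hXY hp hq
  obtain ⟨d, hd⟩ := (Nat.modEq_iff_dvd' hlt.le).mp hmod
  have hcb : 0 < c - b := by omega
  have hd0 : 0 < d := by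
    rcases Nat.eq_zero_or_pos d with h | h
    · rw [h, mul_zero] at hd
      omega
    · exact h
  have hdR : (0 : ℝ) < d := by exact_mod_cast hd0
  have h2m : 2 ^ m * d ≤ c := by omega
  have h2mc : 2 ^ m ≤ c := le_trans (Nat.le_mul_of_pos_right _ hd0) h2m
  have hL : ∑ p ∈ X, Real.log p + ∑ p ∈ Y, Real.log p = Real.log c + Real.log b := by
    rw [hc, hb]
    push_cast
    rw [Real.log_prod (fun p hp => by exact_mod_cast (hX p hp).1.ne_zero),
      Real.log_prod (fun p hp => by exact_mod_cast (hY p hp).1.ne_zero)]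
  set L : ℝ := ∑ p ∈ X, Real.log p + ∑ p ∈ Y, Real.log p with hLdef
  have hLu : 2 * (u : ℝ) ≤ L := by
    have h1 := card_le_sum_log (X := X) fun p hp => ⟨(hX p hp).1, (hX p hp).2.1⟩
    have h2 := card_le_sum_log (X := Y) fun p hp => ⟨(hY p hp).1, (hY p hp).2.1⟩
    rw [hXu] at h1
    rw [hYu] at h2
    linarith
  have huR : (1 : ℝ) ≤ u := by exact_mod_cast hu
  have hlogbc : Real.log b ≤ Real.log c := Real.log_le_log hbR (by exact_mod_cast hlt.le)
  have hlog2 : 0 < Real.log 2 := Real.log_pos (by norm_num)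
  have hlogc : (m : ℝ) * Real.log 2 ≤ Real.log c := by
    rw [← Real.log_pow]
    exact Real.log_le_log (by positivity) (by exact_mod_cast h2mc)
  have hlogd : Real.log d ≤ Real.log c - m * Real.log 2 := by
    have h1 : ((2 : ℝ) ^ m * d) ≤ c := by exact_mod_cast h2m
    have h2 := Real.log_le_log (by positivity) h1
    rw [Real.log_mul (by positivity) hdR.ne', Real.log_pow] at h2
    linarith
  refine ⟨c - b, b, c, hcb, hb0, by omega, ?_, h2mc, ?_, L + Real.log c - (m - 1) * Real.log 2,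
    ?_, ?_, ?_⟩
  · rw [Nat.coprime_sub_self_left hlt.le]
    exact hcop
  · have h1 : c ≤ y ^ u := by
      rw [hc, ← hXu]
      calc ∏ p ∈ X, p ≤ ∏ _ ∈ X, y := Finset.prod_le_prod' fun p hp => (hX p hp).2.2
        _ = y ^ X.card := by simp
    have h2 : (c : ℝ) ≤ (y : ℝ) ^ u := by exact_mod_cast h1
    have h3 := Real.log_le_log hcR h2
    rwa [Real.log_pow] at h3
  · linarith
  · linarith
  · set n : ℕ := (c - b) * b * c with hn
    have hn0 : n ≠ 0 := by
      rw [hn]
      positivity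
    have hXn : X ∪ Y ⊆ n.primeFactors := by
      intro p hp
      rw [Nat.mem_primeFactors]
      rcases Finset.mem_union.mp hp with h | h
      · refine ⟨(hX p h).1, ?_, hn0⟩
        rw [hn]
        exact Dvd.dvd.mul_left (Finset.dvd_prod_of_mem _ h) _
      · refine ⟨(hY p h).1, ?_, hn0⟩
        rw [hn]
        exact Dvd.dvd.mul_right (Dvd.dvd.mul_left (Finset.dvd_prod_of_mem _ h) _) _
    have hω : 2 * (u : ℝ) ≤ (n.primeFactors.card : ℝ) := by
      have h1 := Finset.card_le_card hXn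
      rw [Finset.card_union_of_disjoint hXY, hXu, hYu] at h1
      have h2 : ((u + u : ℕ) : ℝ) ≤ (n.primeFactors.card : ℝ) := by exact_mod_cast h1
      push_cast at h2
      linarith
    have hr0 : 0 < ∏ p ∈ n.primeFactors, p :=
      Finset.prod_pos fun p hp => (Nat.prime_of_mem_primeFactors hp).pos
    have hrlow : c * b ≤ ∏ p ∈ n.primeFactors, p := by
      have h1 : ∏ p ∈ X ∪ Y, p ∣ ∏ p ∈ n.primeFactors, p :=
        Finset.prod_dvd_prod_of_subset _ _ _ hXn
      rw [Finset.prod_union hXY] at h1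
      exact Nat.le_of_dvd hr0 h1
    have hrup : ∏ p ∈ n.primeFactors, p ≤ 2 * d * b * c := by
      have hne : 2 * d * b * c ≠ 0 := by positivity
      have h1 : n.primeFactors ⊆ (2 * d * b * c).primeFactors := by
        intro p hp
        rw [Nat.mem_primeFactors] at hp ⊢
        obtain ⟨hpp, hpn, _⟩ := hp
        refine ⟨hpp, ?_, hne⟩
        rw [hn, hd] at hpn
        rcases (Nat.Prime.dvd_mul hpp).mp hpn with h | h
        · rcases (Nat.Prime.dvd_mul hpp).mp h with h | h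
          · rcases (Nat.Prime.dvd_mul hpp).mp h with h | h
            · have h2 : p ∣ 2 := hpp.dvd_of_dvd_pow h
              exact Dvd.dvd.mul_right (Dvd.dvd.mul_right (Dvd.dvd.mul_right h2 _) _) _
            · exact Dvd.dvd.mul_right (Dvd.dvd.mul_right (Dvd.dvd.mul_left h _) _) _
          · exact Dvd.dvd.mul_right (Dvd.dvd.mul_left h _) _
        · exact Dvd.dvd.mul_left h _
      have h2 : ∏ p ∈ n.primeFactors, p ∣ 2 * d * b * c :=
        (Finset.prod_dvd_prod_of_subset _ _ _ h1).trans (Nat.prod_primeFactors_dvd _)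
      exact Nat.le_of_dvd (Nat.pos_of_ne_zero hne) h2
    set r : ℕ := ∏ p ∈ n.primeFactors, p with hr
    have hrR : (0 : ℝ) < r := by exact_mod_cast hr0
    set g : ℝ := Real.log (r : ℝ) with hg
    have hglow : L ≤ g := by
      have h1 : ((c * b : ℕ) : ℝ) ≤ r := by exact_mod_cast hrlow
      have h2 := Real.log_le_log (by positivity) h1
      push_cast at h2
      rw [Real.log_mul hcR.ne' hbR.ne'] at h2
      linarith
    have hgup : g ≤ L + Real.log c - (m - 1) * Real.log 2 := by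
      have h1 : (r : ℝ) ≤ ((2 * d * b * c : ℕ) : ℝ) := by exact_mod_cast hrup
      have h2 := Real.log_le_log hrR h1
      push_cast at h2
      rw [Real.log_mul (by positivity) hcR.ne', Real.log_mul (by positivity) hbR.ne',
        Real.log_mul (by norm_num) hdR.ne'] at h2
      linarith
    have hg1 : 1 ≤ g := by linarith
    refine ⟨hg1, ?_⟩
    have hlogg : 0 ≤ Real.log g := Real.log_nonneg hg1
    have h5 : 2 * (u : ℝ) * Real.log g ≤ (n.primeFactors.card : ℝ) * Real.log g := by gcongr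
    have h6 := decr (k := 2 * (u : ℝ)) (g := g) (G := L + Real.log c - (m - 1) * Real.log 2)
      (by positivity) (by linarith) (by linarith) hgup
    linarith

/-- the triple given by two sets `A`, `B` of the same size with congruent products -/
theorem triple {y m : ℕ} {A B : Finset ℕ} (hA : ∀ p ∈ A, p.Prime ∧ 3 ≤ p ∧ p ≤ y)
    (hB : ∀ p ∈ B, p.Prime ∧ 3 ≤ p ∧ p ≤ y) (hcard : A.card = B.card) (hne : A ≠ B)
    (hmod : (∏ p ∈ A, p) ≡ (∏ p ∈ B, p) [MOD 2 ^ m]) :
    1 ≤ (A \ B).card ∧ (B \ A).card = (A \ B).card ∧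
    ∃ a b c : ℕ, 0 < a ∧ 0 < b ∧ a + b = c ∧ Nat.Coprime a b ∧ 2 ^ m ≤ c ∧
      Real.log c ≤ (A \ B).card * Real.log y ∧ ∃ G : ℝ,
        (∑ p ∈ A \ B, Real.log p + ∑ p ∈ B \ A, Real.log p) ≤ G ∧
        3 / 2 * (∑ p ∈ A \ B, Real.log p + ∑ p ∈ B \ A, Real.log p) - m * Real.log 2 ≤ G ∧
        1 ≤ Real.log ((∏ p ∈ (a * b * c).primeFactors, p : ℕ) : ℝ) ∧
        (m - 1) * Real.log 2 - (∑ p ∈ A \ B, Real.log p + ∑ p ∈ B \ A, Real.log p) +
            2 * (A \ B).card * Real.log G ≤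
          Real.log c - (Real.log ((∏ p ∈ (a * b * c).primeFactors, p : ℕ) : ℝ) -
            ((a * b * c).primeFactors.card : ℝ) *
              Real.log (Real.log ((∏ p ∈ (a * b * c).primeFactors, p : ℕ) : ℝ))) := by
  classical
  have hcard2 : (B \ A).card = (A \ B).card := Finset.card_sdiff_comm hcard.symm
  have hpos : 1 ≤ (A \ B).card := by
    rw [Nat.one_le_iff_ne_zero, Finset.card_ne_zero]
    rw [Finset.sdiff_nonempty]
    intro h
    exact hne (Finset.eq_of_subset_of_card_le h hcard.symm.le)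
  refine ⟨hpos, hcard2, ?_⟩
  -- the congruence of the differences
  have hmod2 : (∏ p ∈ A \ B, p) ≡ (∏ p ∈ B \ A, p) [MOD 2 ^ m] := by
    have h1 := Finset.prod_inter_mul_prod_sdiff A B (fun p => p)
    have h2 := Finset.prod_inter_mul_prod_sdiff B A (fun p => p)
    rw [Finset.inter_comm B A] at h2
    rw [← h1, ← h2] at hmod
    refine Nat.ModEq.cancel_left_of_coprime ?_ hmod
    apply Nat.Coprime.pow_left
    apply Nat.Coprime.prod_right
    intro p hp
    have h3 := hA p (Finset.mem_inter.mp hp).1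
    rw [Nat.coprime_primes Nat.prime_two h3.1]
    omega
  have hX : ∀ p ∈ A \ B, p.Prime ∧ 3 ≤ p ∧ p ≤ y := fun p hp => hA p (Finset.mem_sdiff.mp hp).1
  have hY : ∀ p ∈ B \ A, p.Prime ∧ 3 ≤ p ∧ p ≤ y := fun p hp => hB p (Finset.mem_sdiff.mp hp).1
  have hdisj : Disjoint (A \ B) (B \ A) := by
    rw [Finset.disjoint_left]
    intro p h1 h2
    exact (Finset.mem_sdiff.mp h1).2 (Finset.mem_sdiff.mp h2).1
  rcases lt_trichotomy (∏ p ∈ B \ A, p) (∏ p ∈ A \ B, p) with h | h | h
  · exact core hX hY hdisj rfl hcard2 hpos h hmod2.symm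
  · exfalso
    obtain ⟨p, hp⟩ : (A \ B).Nonempty := Finset.card_pos.mp hpos
    have h1 : p ∣ ∏ q ∈ B \ A, q := by
      rw [h]
      exact Finset.dvd_prod_of_mem _ hp
    obtain ⟨q, hq, hpq⟩ := (Prime.dvd_finsetProd_iff (hX p hp).1.prime _).mp h1
    have h2 := (Nat.prime_dvd_prime_iff_eq (hX p hp).1 (hY q hq).1).mp hpq
    rw [h2] at hp
    exact Finset.disjoint_left.mp hdisj hp hq
  · have h1 := core hY hX hdisj.symm hcard2 rfl hpos h hmod2
    rw [add_comm (∑ p ∈ B \ A, Real.log p)] at h1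
    exact h1

end Pool.Agent.N9.AB
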