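import Pool.Agent.N9.AB.Event
import Pool.Agent.N9.AB.Ineq
import Pool.Agent.N9.AB.Triple

/-!
# The triple of a good pair
-/

set_option autoImplicit false

namespace Pool.Agent.N9.AB

open Finset

theorem pair {N : ℕ} {δ δ₁ : ℝ} (hδ : 0 < δ) (hδ1 : δ ≤ 1 / 40)
    (hδ₁ : 80 * δ₁ ≤ 3 * (1 - Real.exp (-δ))) (hN : 2 + 2 / δ ≤ (N : ℝ)) {y k m : ℕ} (hy : 3 ≤ y)
    (hk : k + 1 = Nat.primeCounting y) (hk0 : 0 < k)
    (h1 : -δ ≤ Real.log (k * Real.log y / y)) (h2 : (k : ℝ) ≤ δ₁ * y)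
    (h3 : (y : ℝ) ≤ 2 * k * Real.log y)
    (h4 : (Nat.primeCounting y : ℝ) * Real.log y - Chebyshev.theta y ≤ δ₁ * y)
    (h5 : ∑ p ∈ Nat.primesLE y, max (Real.log 4 - (Real.log y - Real.log p)) 0 ≤
      (Real.log 4 - 3 / 4 + δ) * k)
    (h6 : 2 ^ m * N ≤ k.choose (k / 2)) (h7 : (Real.log 2 - δ) * k ≤ (m - 1) * Real.log 2)
    (h8 : m ≤ k) :
    ∃ u : ℕ, 1 ≤ u ∧ ∃ a b c : ℕ, 0 < a ∧ 0 < b ∧ a + b = c ∧ Nat.Coprime a b ∧ 2 ^ m ≤ c ∧
      Real.log c ≤ u * Real.log y ∧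
      1 ≤ Real.log ((∏ p ∈ (a * b * c).primeFactors, p : ℕ) : ℝ) ∧
      (2 + 4 * Real.log (3 / 2) - 36 * δ) * u ≤
          Real.log c - (Real.log ((∏ p ∈ (a * b * c).primeFactors, p : ℕ) : ℝ) -
            ((a * b * c).primeFactors.card : ℝ) *
              Real.log (Real.log ((∏ p ∈ (a * b * c).primeFactors, p : ℕ) : ℝ))) := by
  classical
  have hyR : (3 : ℝ) ≤ y := by exact_mod_cast hy
  have hy0 : (0 : ℝ) < y := by linarith
  have hY : 0 < Real.log (y : ℝ) := Real.log_pos (by linarith)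
  have hkR : (0 : ℝ) < k := by exact_mod_cast hk0
  set P : Finset ℕ := (Nat.primesLE y).erase 2 with hP
  have hPmem : ∀ p ∈ P, p.Prime ∧ 3 ≤ p ∧ p ≤ y := by
    intro p hp
    rw [hP, Finset.mem_erase, Nat.mem_primesLE] at hp
    have := hp.2.2.two_le
    exact ⟨hp.2.2, by omega, hp.2.1⟩
  have hPsub : P ⊆ Nat.primesLE y := Finset.erase_subset _ _
  have hPk : P.card = k := by
    rw [hP, Finset.card_erase_of_mem (by
      rw [Nat.mem_primesLE]
      exact ⟨by omega, Nat.prime_two⟩), Nat.primesLE_card_eq_primeCounting, ← hk]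
    omega
  obtain ⟨F, hF1, hF2, hF3⟩ := exists_class P N m (by
    rw [hPk]
    exact h6)
  have hN2 : (2 : ℝ) ≤ N := by
    have : 0 < 2 / δ := by positivity
    linarith
  have hN2' : 2 ≤ N := by exact_mod_cast hN2
  set w : ℕ → ℝ := fun p => max (Real.log 4 - (Real.log y - Real.log p)) 0 with hw
  obtain ⟨A, hA, B, hB, hAB, hsum⟩ := pair_average P F (fun T hT => (hF2 T hT).1) w
    (fun p => le_max_right _ _) (by
      rw [hF1]
      exact hN2')
  rw [hF1] at hsum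
  have hAP := (hF2 A hA).1
  have hBP := (hF2 B hB).1
  have hA' : ∀ p ∈ A, p.Prime ∧ 3 ≤ p ∧ p ≤ y := fun p hp => hPmem p (hAP hp)
  have hB' : ∀ p ∈ B, p.Prime ∧ 3 ≤ p ∧ p ≤ y := fun p hp => hPmem p (hBP hp)
  obtain ⟨hu1, hcard, a, b, c, ha, hb, habc, hcop, h2m, hlogc, G, hG1, hG2, hg1, hest⟩ :=
    triple (m := m) hA' hB' ((hF2 A hA).2.trans (hF2 B hB).2.symm) hAB (hF3 A hA B hB)
  have hdisj : Disjoint (A \ B) (B \ A) := by
    rw [Finset.disjoint_left]
    intro p h1 h2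
    exact (Finset.mem_sdiff.mp h1).2 (Finset.mem_sdiff.mp h2).1
  have hunion : (A \ B) ∪ (B \ A) ⊆ P := by
    intro p hp
    rcases Finset.mem_union.mp hp with h | h
    · exact hAP (Finset.mem_sdiff.mp h).1
    · exact hBP (Finset.mem_sdiff.mp h).1
  set u : ℕ := (A \ B).card with hu
  have huR : (1 : ℝ) ≤ u := by exact_mod_cast hu1
  have h2u : 2 * (u : ℝ) ≤ k := by
    have e1 := Finset.card_le_card hunion
    rw [Finset.card_union_of_disjoint hdisj, hcard, hPk] at e1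
    have e2 : ((u + u : ℕ) : ℝ) ≤ (k : ℝ) := by exact_mod_cast e1
    push_cast at e2
    linarith
  refine ⟨u, hu1, a, b, c, ha, hb, habc, hcop, h2m, hlogc, hg1, ?_⟩
  refine le_trans ?_ hest
  set L : ℝ := ∑ p ∈ A \ B, Real.log p + ∑ p ∈ B \ A, Real.log p with hL
  have hLu : 2 * (u : ℝ) ≤ L := by
    have e1 := card_le_sum_log (X := A \ B) fun p hp =>
      ⟨(hA' p (Finset.mem_sdiff.mp hp).1).1, (hA' p (Finset.mem_sdiff.mp hp).1).2.1⟩
    have e2 := card_le_sum_log (X := B \ A) fun p hp =>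
      ⟨(hB' p (Finset.mem_sdiff.mp hp).1).1, (hB' p (Finset.mem_sdiff.mp hp).1).2.1⟩
    rw [hcard] at e2
    rw [← hu] at e1
    linarith
  -- the loss `l`
  set l : ℝ := 2 * u * Real.log y - L with hl
  have hleq : l = ∑ p ∈ (A \ B) ∪ (B \ A), (Real.log y - Real.log p) := by
    rw [Finset.sum_union hdisj, Finset.sum_sub_distrib, Finset.sum_sub_distrib, Finset.sum_const,
      Finset.sum_const, hcard, nsmul_eq_mul, hl, hL]
    ring
  have hterm : ∀ p ∈ Nat.primesLE y, 0 ≤ Real.log y - Real.log p := by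
    intro p hp
    rw [Nat.mem_primesLE] at hp
    have e1 : (0 : ℝ) < p := by exact_mod_cast hp.2.pos
    have e2 : (p : ℝ) ≤ y := by exact_mod_cast hp.1
    have := Real.log_le_log e1 e2
    linarith
  have hl0 : 0 ≤ l := by
    rw [hleq]
    exact Finset.sum_nonneg fun p hp => hterm p (hPsub (hunion hp))
  have hlup : l ≤ δ₁ * y := by
    refine le_trans ?_ h4
    rw [hleq]
    calc ∑ p ∈ (A \ B) ∪ (B \ A), (Real.log y - Real.log p)
        ≤ ∑ p ∈ Nat.primesLE y, (Real.log y - Real.log p) :=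
          Finset.sum_le_sum_of_subset_of_nonneg (hunion.trans hPsub) fun p hp _ => hterm p hp
      _ = (Nat.primeCounting y : ℝ) * Real.log y - Chebyshev.theta y := by
          rw [Finset.sum_sub_distrib, Finset.sum_const, nsmul_eq_mul,
            Nat.primesLE_card_eq_primeCounting, Chebyshev.theta_eq_sum_primesLE_log]
  have hWΔ : 2 * (u : ℝ) * Real.log 4 - l ≤
      1 / 2 * (Real.log 4 - 3 / 4) * k + δ * k := by
    have e1 : 2 * (u : ℝ) * Real.log 4 - l ≤ ∑ p ∈ A \ B, w p + ∑ p ∈ B \ A, w p := by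
      rw [← Finset.sum_union hdisj, hleq]
      have e2 : 2 * (u : ℝ) * Real.log 4 = ∑ _ ∈ (A \ B) ∪ (B \ A), Real.log 4 := by
        rw [Finset.sum_const, Finset.card_union_of_disjoint hdisj, hcard, nsmul_eq_mul]
        push_cast
        ring
      rw [e2, ← Finset.sum_sub_distrib]
      exact Finset.sum_le_sum fun p _ => le_max_left _ _
    have e2 : ∑ p ∈ P, w p ≤ (Real.log 4 - 3 / 4 + δ) * k := by
      refine le_trans ?_ h5
      exact Finset.sum_le_sum_of_subset_of_nonneg hPsub fun p _ _ => le_max_right _ _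
    set S : ℝ := ∑ p ∈ A \ B, w p + ∑ p ∈ B \ A, w p with hS
    have e3 : 2 * ((N : ℝ) - 1) * S ≤ N * ((Real.log 4 - 3 / 4 + δ) * k) :=
      hsum.trans (by gcongr)
    have e4 : Real.log 4 = 2 * Real.log 2 := by
      rw [show (4 : ℝ) = 2 ^ 2 by norm_num, Real.log_pow]
      push_cast
      ring
    have e5 := Real.log_two_lt_d9
    have e6 := Real.log_two_gt_d9
    have hN1 : 0 < (N : ℝ) - 1 := by linarith
    have hNδ : 2 ≤ δ * ((N : ℝ) - 1) := by
      have e7 : 2 / δ ≤ (N : ℝ) - 1 := by linarith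
      rw [div_le_iff₀ hδ] at e7
      linarith
    refine e1.trans ?_
    have e7 : (N : ℝ) * ((Real.log 4 - 3 / 4 + δ) * k) ≤
        2 * ((N : ℝ) - 1) * (1 / 2 * (Real.log 4 - 3 / 4) * k + δ * k) := by
      have e8 : 2 * ((N : ℝ) - 1) * (1 / 2 * (Real.log 4 - 3 / 4) * k + δ * k) -
          (N : ℝ) * ((Real.log 4 - 3 / 4 + δ) * k) =
          (δ * ((N : ℝ) - 1) - (Real.log 4 - 3 / 4) - δ) * k := by ring
      have e9 : 0 ≤ (δ * ((N : ℝ) - 1) - (Real.log 4 - 3 / 4) - δ) * k := by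
        apply mul_nonneg _ hkR.le
        rw [e4]
        linarith
      linarith
    have e8 := e3.trans e7
    exact le_of_mul_le_mul_left e8 (by linarith)
  have hmk : (m : ℝ) * Real.log 2 ≤ k := by
    have e1 : (m : ℝ) ≤ k := by exact_mod_cast h8
    have e2 : Real.log 2 ≤ 1 := by
      have := Real.log_two_lt_d9
      linarith
    calc (m : ℝ) * Real.log 2 ≤ m * 1 := by gcongr
      _ = m := mul_one _
      _ ≤ k := e1
  have hdecr := decr (k := 2 * (u : ℝ)) (g := L) (G := 2 * u * Real.log y) (by positivity)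
    (by linarith) hLu (by linarith)
  exact ineq (κ := (k : ℝ)) (u := (u : ℝ)) (Y := Real.log y) (y := (y : ℝ)) (L := L) (G := G)
    (l := l) (m := (m : ℝ)) (δ := δ) (δ₁ := δ₁) hkR (by linarith) hY hy0 rfl hδ hδ1 hδ₁ h2u h1
    (by rw [hl]; ring) hLu hdecr hG1 hG2 h7 hmk hlup h2 h3 hWΔ

end Pool.Agent.N9.AB
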