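import Pool.Agent.Cov.PNT

/-!
# The sum of `log (4 p / x)` over the primes between `x / 4` and `x`
-/

set_option autoImplicit false

namespace Pool.Agent.N9.AB

open Filter Topology Chebyshev MeasureTheory Finset

/-- the sum of `log (4 p / x)` over the primes between `x / 4` and `x` -/
theorem weight_eq {x : ℝ} (hx : 8 ≤ x) :
    ∑ p ∈ Nat.primesLE ⌊x⌋₊, max (Real.log 4 - (Real.log x - Real.log p)) 0 =
      (Nat.primeCounting ⌊x⌋₊ : ℝ) * Real.log 4 -
        ∫ t in (x / 4)..x, (Nat.primeCounting ⌊t⌋₊ : ℝ) / t := by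
  have hx0 : 0 < x := by linarith
  have hx4 : 2 ≤ x / 4 := by linarith
  have hsub : Nat.primesLE ⌊x / 4⌋₊ ⊆ Nat.primesLE ⌊x⌋₊ := by
    intro p hp
    rw [Nat.mem_primesLE] at hp ⊢
    exact ⟨hp.1.trans (Nat.floor_le_floor (by linarith)), hp.2⟩
  have h1 : ∑ p ∈ Nat.primesLE ⌊x⌋₊, max (Real.log 4 - (Real.log x - Real.log p)) 0 =
      ∑ p ∈ Nat.primesLE ⌊x⌋₊ \ Nat.primesLE ⌊x / 4⌋₊, (Real.log 4 - Real.log x + Real.log p) := by
    rw [← Finset.sum_sdiff hsub]
    have h2 : ∑ p ∈ Nat.primesLE ⌊x / 4⌋₊, max (Real.log 4 - (Real.log x - Real.log p)) 0 = 0 := by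
      apply Finset.sum_eq_zero
      intro p hp
      rw [Nat.mem_primesLE] at hp
      have hp0 : (0 : ℝ) < p := by exact_mod_cast hp.2.pos
      have h3 : (p : ℝ) ≤ x / 4 := by
        have := Nat.floor_le (show 0 ≤ x / 4 by positivity)
        have h4 : (p : ℝ) ≤ (⌊x / 4⌋₊ : ℝ) := by exact_mod_cast hp.1
        linarith
      have h4 := Real.log_le_log hp0 h3
      rw [Real.log_div hx0.ne' (by norm_num)] at h4
      apply max_eq_right
      linarith
    rw [h2, add_zero]
    apply Finset.sum_congr rfl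
    intro p hp
    rw [Finset.mem_sdiff, Nat.mem_primesLE, Nat.mem_primesLE] at hp
    have hp0 : (0 : ℝ) < p := by exact_mod_cast hp.1.2.pos
    have h3 : x / 4 < (p : ℝ) := by
      by_contra hcon
      rw [not_lt] at hcon
      exact hp.2 ⟨Nat.le_floor hcon, hp.1.2⟩
    have h4 := Real.log_le_log (by positivity) h3.le
    rw [Real.log_div hx0.ne' (by norm_num)] at h4
    rw [max_eq_left (by linarith)]
    ring
  have h2 : ∀ z : ℝ, ∑ p ∈ Nat.primesLE ⌊z⌋₊, (Real.log 4 - Real.log x + Real.log p) =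
      (Nat.primeCounting ⌊z⌋₊ : ℝ) * (Real.log 4 - Real.log x) + Chebyshev.theta z := by
    intro z
    rw [Finset.sum_add_distrib, Finset.sum_const, nsmul_eq_mul,
      Nat.primesLE_card_eq_primeCounting, Chebyshev.theta_eq_sum_primesLE]
  have hint : ∀ a b : ℝ, 2 ≤ a → 2 ≤ b →
      IntervalIntegrable (fun t => (Nat.primeCounting ⌊t⌋₊ : ℝ) / t) volume a b := by
    intro a b ha hb
    have hmono : Monotone fun t : ℝ => (Nat.primeCounting ⌊t⌋₊ : ℝ) := by
      intro s t hst
      simp only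
      exact_mod_cast Nat.monotone_primeCounting (Nat.floor_le_floor hst)
    have hi : IntervalIntegrable (fun t : ℝ => (Nat.primeCounting ⌊t⌋₊ : ℝ)) volume a b :=
      (hmono.monotoneOn _).intervalIntegrable
    have h3 := hi.mul_continuousOn (g := fun t : ℝ => t⁻¹) (by
      apply ContinuousOn.inv₀ continuousOn_id
      intro t ht
      have h4 : min a b ≤ t := ht.1
      have h5 : 2 ≤ min a b := le_min ha hb
      simp only [id]
      intro h6
      linarith)
    exact h3
  have h3 := Finset.sum_sdiff hsub (f := fun p : ℕ => (Real.log 4 - Real.log x + Real.log p))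
  rw [h2, h2] at h3
  rw [h1]
  have h4 := Chebyshev.theta_eq_primeCounting_mul_log_sub_integral (x := x) (by linarith)
  have h5 := Chebyshev.theta_eq_primeCounting_mul_log_sub_integral (x := x / 4) hx4
  rw [Real.log_div hx0.ne' (by norm_num)] at h5
  have h6 := intervalIntegral.integral_add_adjacent_intervals (hint 2 (x / 4) le_rfl hx4)
    (hint (x / 4) x hx4 (by linarith))
  rw [h4, h5, ← h6] at h3
  linarith

/-- the bound for the weights -/
theorem weight_sum {ε : ℝ} (hε : 0 < ε) : ∀ᶠ x : ℝ in atTop,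
    ∑ p ∈ Nat.primesLE ⌊x⌋₊, max (Real.log 4 - (Real.log x - Real.log p)) 0 ≤
      (Real.log 4 - 3 / 4 + ε) * (Nat.primeCounting ⌊x⌋₊ : ℝ) := by
  set δ : ℝ := min (ε / 2) (1 / 2) with hδ
  have hδ0 : 0 < δ := lt_min (by linarith) (by norm_num)
  have hδε : 2 * δ ≤ ε := by
    have : δ ≤ ε / 2 := min_le_left _ _
    linarith
  have hδ1 : δ ≤ 1 / 2 := min_le_right _ _
  have hpi := Pool.Agent.Cov.PNT.pi_tendsto
  obtain ⟨t₀, ht₀⟩ := eventually_atTop.mp (hpi.eventually (lt_mem_nhds (show 1 - δ < 1 by linarith)))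
  filter_upwards [hpi.eventually (gt_mem_nhds (show (1 : ℝ) < 1 + δ by linarith)),
    eventually_ge_atTop (4 * t₀), eventually_ge_atTop 8] with x h1 h2 hx
  have hx0 : 0 < x := by linarith
  rw [weight_eq hx]
  have hlx : 0 < Real.log x := Real.log_pos (by linarith)
  have hmono : Monotone fun t : ℝ => (Nat.primeCounting ⌊t⌋₊ : ℝ) := by
    intro s t hst
    simp only
    exact_mod_cast Nat.monotone_primeCounting (Nat.floor_le_floor hst)
  have hint : IntervalIntegrable (fun t => (Nat.primeCounting ⌊t⌋₊ : ℝ) / t) volume (x / 4) x := by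
    have hi : IntervalIntegrable (fun t : ℝ => (Nat.primeCounting ⌊t⌋₊ : ℝ)) volume (x / 4) x :=
      (hmono.monotoneOn _).intervalIntegrable
    have h3 := hi.mul_continuousOn (g := fun t : ℝ => t⁻¹) (by
      apply ContinuousOn.inv₀ continuousOn_id
      intro t ht
      have h4 : min (x / 4) x ≤ t := ht.1
      have h5 : 2 ≤ min (x / 4) x := le_min (by linarith) (by linarith)
      simp only [id]
      intro h6
      linarith)
    exact h3
  have hI : (x - x / 4) * ((1 - δ) / Real.log x) ≤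
      ∫ t in (x / 4)..x, (Nat.primeCounting ⌊t⌋₊ : ℝ) / t := by
    have h8 : ∫ _ in (x / 4)..x, (1 - δ) / Real.log x = (x - x / 4) * ((1 - δ) / Real.log x) := by
      rw [intervalIntegral.integral_const, smul_eq_mul]
    rw [← h8]
    refine intervalIntegral.integral_mono_on (by linarith) (by simp) hint fun t ht => ?_
    have ht2 : (2 : ℝ) ≤ t := by linarith [ht.1]
    have ht0 : (0 : ℝ) < t := by linarith
    have hlt : 0 < Real.log t := Real.log_pos (by linarith)
    have hle : Real.log t ≤ Real.log x := Real.log_le_log ht0 ht.2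
    have h9 := ht₀ t (by linarith [ht.1])
    rw [lt_div_iff₀ ht0] at h9
    rw [div_le_div_iff₀ hlx ht0]
    calc (1 - δ) * t ≤ (Nat.primeCounting ⌊t⌋₊ : ℝ) * Real.log t := h9.le
      _ ≤ (Nat.primeCounting ⌊t⌋₊ : ℝ) * Real.log x := by gcongr
  have h3 : (Nat.primeCounting ⌊x⌋₊ : ℝ) * (1 - δ) ≤ x / Real.log x := by
    rw [div_lt_iff₀ hx0] at h1
    rw [le_div_iff₀ hlx]
    have h4 : (Nat.primeCounting ⌊x⌋₊ : ℝ) * (1 - δ) * Real.log x ≤ (1 - δ) * ((1 + δ) * x) := by
      have : 0 ≤ 1 - δ := by linarith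
      nlinarith
    nlinarith [sq_nonneg δ]
  have h4 : 3 / 4 * (1 - 2 * δ) * (Nat.primeCounting ⌊x⌋₊ : ℝ) ≤
      (x - x / 4) * ((1 - δ) / Real.log x) := by
    have e1 : (x - x / 4) * ((1 - δ) / Real.log x) = 3 / 4 * (1 - δ) * (x / Real.log x) := by ring
    rw [e1]
    have h5 : 3 / 4 * (1 - δ) * ((Nat.primeCounting ⌊x⌋₊ : ℝ) * (1 - δ)) ≤
        3 / 4 * (1 - δ) * (x / Real.log x) := by
      apply mul_le_mul_of_nonneg_left h3
      nlinarith
    have h6 : 0 ≤ (Nat.primeCounting ⌊x⌋₊ : ℝ) := by positivity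
    nlinarith [mul_nonneg (sq_nonneg δ) h6]
  have h5 : 0 ≤ (Nat.primeCounting ⌊x⌋₊ : ℝ) := by positivity
  nlinarith [mul_nonneg hδ0.le h5, mul_nonneg (sub_nonneg.mpr hδε) h5]

end Pool.Agent.N9.AB
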